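import Pool.Agent.N421.KD.Cor

set_option autoImplicit false

/-!
# The dimension-free Komlós bound with truncated rows: finite families
-/

open Finset

namespace Pool.Agent.U531.KL

open Pool.Agent.R959.LD2

noncomputable section

open Classical in
/-- `1` if the entry `y` (with starting point `a`) is alive and large, `0` otherwise -/
def big (η y a : ℝ) : ℝ := if |a| < 1 ∧ η ≤ |y| then 1 else 0

open Classical in
/-- `|y|` if the entry `y` (with starting point `a`) is alive and small, `0` otherwise -/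
def small (η y a : ℝ) : ℝ := if |a| < 1 ∧ |y| < η then |y| else 0

theorem big_nonneg (η y a : ℝ) : 0 ≤ big η y a := by
  unfold big
  split_ifs
  · exact zero_le_one
  · exact le_rfl

theorem small_nonneg (η y a : ℝ) : 0 ≤ small η y a := by
  unfold small
  split_ifs
  · exact abs_nonneg _
  · exact le_rfl

/-- **the finite form**: entries below `η` are estimated trivially -/
theorem fin_cut : ∃ C : ℝ, 0 < C ∧ ∀ (D : ℕ) (η : ℝ), 1 ≤ D → 0 < η →
    ∀ (V W : Type) [Fintype V] [Fintype W] (A : W → V → ℝ) (a : V → ℝ),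
    (∀ v, ∑ R, A R v ^ 2 ≤ 1) → (∀ v, |a v| ≤ 1) →
    ∃ x : V → ℝ, (∀ v, x v = 1 ∨ x v = -1) ∧ (∀ v, |a v| = 1 → x v = a v) ∧
      ∀ R, |∑ v, A R v * (x v - a v)| ≤
        C * (1 + Real.log D) * (1 + (∑ v, big η (A R v) (a v)) / D) +
          2 * ∑ v, small η (A R v) (a v) := by
  classical
  obtain ⟨C, hC, h⟩ := Pool.Agent.N421.KD.cut
  refine ⟨C, hC, ?_⟩
  intro D η hD hη V W _ _ A a hcol ha
  have hD1 : (1 : ℝ) ≤ D := by exact_mod_cast hD
  obtain ⟨A1, hA1⟩ : ∃ A1 : W → V → ℝ, A1 = fun R v => if η ≤ |A R v| then A R v else 0 :=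
    ⟨_, rfl⟩
  have hsq : ∀ R v, A1 R v ^ 2 ≤ A R v ^ 2 := by
    intro R v
    rw [hA1]
    dsimp only
    split_ifs
    · exact le_rfl
    · rw [zero_pow two_ne_zero]
      exact sq_nonneg _
  obtain ⟨x, x1, x2, x3⟩ := h D hD V W A1 a
    (fun v => (sum_le_sum fun R _ => hsq R v).trans (hcol v)) ha
  refine ⟨x, x1, x2, fun R => ?_⟩
  -- the number of large entries
  have hN : ((supp (fun v => A1 R v * (1 - |a v|))).card : ℝ) ≤ ∑ v, big η (A R v) (a v) := by
    rw [card_eq_sum_ones, Nat.cast_sum]
    refine (sum_le_sum ?_).trans (sum_le_sum_of_subset_of_nonneg (subset_univ _)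
      (fun v _ _ => big_nonneg _ _ _))
    intro v hv
    rw [mem_supp] at hv
    have h1 := left_ne_zero_of_mul hv
    have h2 := right_ne_zero_of_mul hv
    rw [hA1] at h1
    dsimp only at h1
    split_ifs at h1 with h3
    · unfold big
      rw [Nat.cast_one, if_pos ⟨lt_of_le_of_ne (ha v) fun h4 => h2 (by rw [h4]; ring), h3⟩]
    · exact absurd rfl h1
  -- the small entries
  have hsm : |∑ v, (A R v - A1 R v) * (x v - a v)| ≤ 2 * ∑ v, small η (A R v) (a v) := by
    refine (abs_sum_le_sum_abs _ _).trans ?_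
    rw [mul_sum]
    refine sum_le_sum fun v _ => ?_
    rw [abs_mul]
    rcases lt_or_eq_of_le (ha v) with h1 | h1
    · have h2 : |x v - a v| ≤ 2 := by
        have h3 : |x v| = 1 := by
          rcases x1 v with h | h <;> rw [h] <;> simp
        calc |x v - a v| ≤ |x v| + |a v| := abs_sub _ _
          _ ≤ 2 := by linarith
      have h3 : |A R v - A1 R v| ≤ small η (A R v) (a v) := by
        rw [hA1]
        dsimp only
        split_ifs with h4
        · rw [sub_self, abs_zero]
          exact small_nonneg _ _ _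
        · unfold small
          rw [sub_zero, if_pos ⟨h1, not_le.1 h4⟩]
      calc |A R v - A1 R v| * |x v - a v| ≤ small η (A R v) (a v) * 2 :=
            mul_le_mul h3 h2 (abs_nonneg _) (small_nonneg _ _ _)
        _ = 2 * small η (A R v) (a v) := by ring
    · rw [x2 v h1, sub_self, abs_zero, mul_zero]
      exact mul_nonneg (by norm_num) (small_nonneg _ _ _)
  have hlg : ∑ v, A R v * (x v - a v) = ∑ v, A1 R v * (x v - a v) +
      ∑ v, (A R v - A1 R v) * (x v - a v) := by
    rw [← sum_add_distrib]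
    exact sum_congr rfl fun v _ => by ring
  have hlD : 0 ≤ Real.log (D : ℝ) := Real.log_nonneg hD1
  have h1 : |∑ v, A1 R v * (x v - a v)| ≤
      C * (1 + Real.log D) * (1 + (∑ v, big η (A R v) (a v)) / D) := by
    refine (x3 R).trans ?_
    gcongr
  rw [hlg]
  refine (abs_add_le _ _).trans ?_
  linarith

end

end Pool.Agent.U531.KL
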