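import Pool.Agent.U531.KL.Fin

set_option autoImplicit false

/-!
# The dimension-free Komlós bound for infinite families: compactness
-/

open Finset

namespace Pool.Agent.U531.KL

noncomputable section

universe u w

variable {J : Type u} {I : Type w}

/-- the sign of a Boolean -/
def sg (b : Bool) : ℝ := if b then 1 else -1

theorem sg_eq (b : Bool) : sg b = 1 ∨ sg b = -1 := by
  cases b <;> simp [sg]

theorem continuous_sg : Continuous sg := continuous_of_discreteTopology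

open Classical in
/-- the term of the vector `j` in the coordinate `k` -/
def tm (v : J → I → ℝ) (x₀ : J → ℝ) (k : I) (j : J) (b : J → Bool) : ℝ :=
  if |x₀ j| < 1 then (sg (b j) - x₀ j) * v j k else 0

open Classical in
/-- the absolute value of the entry if it is alive -/
def al (v : J → I → ℝ) (x₀ : J → ℝ) (k : I) (j : J) : ℝ :=
  if |x₀ j| < 1 then |v j k| else 0

theorem al_nonneg (v : J → I → ℝ) (x₀ : J → ℝ) (k : I) (j : J) : 0 ≤ al v x₀ k j := by
  unfold al
  split_ifs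
  · exact abs_nonneg _
  · exact le_rfl

theorem continuous_tm (v : J → I → ℝ) (x₀ : J → ℝ) (k : I) (j : J) :
    Continuous (tm v x₀ k j) := by
  unfold tm
  split_ifs
  · exact ((continuous_sg.comp (continuous_apply j)).sub continuous_const).mul continuous_const
  · exact continuous_const

theorem abs_tm_le (v : J → I → ℝ) (x₀ : J → ℝ) (k : I) (j : J) (b : J → Bool) :
    ‖tm v x₀ k j b‖ ≤ 2 * al v x₀ k j := by
  unfold tm al
  split_ifs with h
  · rw [norm_mul, Real.norm_eq_abs, Real.norm_eq_abs]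
    have h1 : |sg (b j) - x₀ j| ≤ 2 := by
      have h3 : |sg (b j)| = 1 := by
        rcases sg_eq (b j) with h | h <;> rw [h] <;> simp
      calc |sg (b j) - x₀ j| ≤ |sg (b j)| + |x₀ j| := abs_sub _ _
        _ ≤ 2 := by linarith
    exact mul_le_mul_of_nonneg_right h1 (abs_nonneg _)
  · simp

theorem big_le_al {v : J → I → ℝ} {x₀ : J → ℝ} {η : ℝ} (hη : 0 < η) (k : I) (j : J) :
    big η (v j k) (x₀ j) ≤ η⁻¹ * al v x₀ k j := by
  unfold big al
  by_cases h : |x₀ j| < 1 ∧ η ≤ |v j k|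
  · rw [if_pos h, if_pos h.1]
    calc (1 : ℝ) = η⁻¹ * η := (inv_mul_cancel₀ hη.ne').symm
      _ ≤ η⁻¹ * |v j k| := mul_le_mul_of_nonneg_left h.2 (by positivity)
  · rw [if_neg h]
    split_ifs <;> positivity

theorem small_le_al {v : J → I → ℝ} {x₀ : J → ℝ} {η : ℝ} (k : I) (j : J) :
    small η (v j k) (x₀ j) ≤ al v x₀ k j := by
  unfold small al
  by_cases h : |x₀ j| < 1 ∧ |v j k| < η
  · rw [if_pos h, if_pos h.1]
  · rw [if_neg h]
    split_ifs
    · exact abs_nonneg _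
    · exact le_rfl

/-- finitely many coordinates and vectors -/
theorem fin_stage {C η : ℝ} {D : ℕ}
    (H : ∀ (V W : Type) [Fintype V] [Fintype W] (A : W → V → ℝ) (a : V → ℝ),
      (∀ v, ∑ R, A R v ^ 2 ≤ 1) → (∀ v, |a v| ≤ 1) →
      ∃ x : V → ℝ, (∀ v, x v = 1 ∨ x v = -1) ∧ (∀ v, |a v| = 1 → x v = a v) ∧
        ∀ R, |∑ v, A R v * (x v - a v)| ≤
          C * (1 + Real.log D) * (1 + (∑ v, big η (A R v) (a v)) / D) +
            2 * ∑ v, small η (A R v) (a v))
    (v : J → I → ℝ) (x₀ : J → ℝ) (hv : ∀ j, ∀ F : Finset I, ∑ k ∈ F, v j k ^ 2 ≤ 1)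
    (hx₀ : ∀ j, |x₀ j| ≤ 1) (K : Finset I) (J₀ : Finset J) :
    ∃ b : J → Bool, (∀ j, |x₀ j| = 1 → sg (b j) = x₀ j) ∧
      ∀ k ∈ K, |∑ j ∈ J₀, tm v x₀ k j b| ≤
        C * (1 + Real.log D) * (1 + (∑ j ∈ J₀, big η (v j k) (x₀ j)) / D) +
          2 * ∑ j ∈ J₀, small η (v j k) (x₀ j) := by
  classical
  let eJ := J₀.equivFin
  let eK := K.equivFin
  obtain ⟨x, x1, x2, x3⟩ := H (Fin J₀.card) (Fin K.card)
    (fun R t => v (eJ.symm t : J) (eK.symm R : I)) (fun t => x₀ (eJ.symm t : J)) (by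
      intro t
      rw [Equiv.sum_comp eK.symm (fun R : K => v (eJ.symm t : J) (R : I) ^ 2),
        Finset.sum_coe_sort K (fun k => v (eJ.symm t : J) k ^ 2)]
      exact hv _ K) (fun t => hx₀ _)
  let b : J → Bool := fun j => if h : j ∈ J₀ then decide (x (eJ ⟨j, h⟩) = 1)
    else decide (x₀ j ≠ -1)
  have hb1 : ∀ t : J₀, sg (b t) = x (eJ t) := by
    intro t
    simp only [b]
    rw [dif_pos t.2]
    rcases x1 (eJ t) with h | h
    · rw [h]
      simp [sg]
    · rw [h]
      norm_num [sg]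
  refine ⟨b, ?_, ?_⟩
  · intro j hj
    by_cases h : j ∈ J₀
    · have h1 := hb1 ⟨j, h⟩
      rw [h1]
      have h2 := x2 (eJ ⟨j, h⟩)
      simp only [Equiv.symm_apply_apply] at h2
      exact h2 hj
    · simp only [b]
      rw [dif_neg h]
      rcases eq_or_eq_neg_of_abs_eq hj with h1 | h1
      · rw [h1]
        norm_num [sg]
      · rw [h1]
        norm_num [sg]
  · intro k hk
    have h3 := x3 (eK ⟨k, hk⟩)
    simp only [Equiv.symm_apply_apply] at h3
    have e1 : ∑ t : Fin J₀.card, v (eJ.symm t : J) k * (x t - x₀ (eJ.symm t : J)) =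
        ∑ j ∈ J₀, tm v x₀ k j b := by
      rw [← Finset.sum_coe_sort J₀ (fun j => tm v x₀ k j b), ← Equiv.sum_comp eJ.symm]
      refine sum_congr rfl fun t _ => ?_
      unfold tm
      rw [hb1, Equiv.apply_symm_apply]
      split_ifs with h
      · ring
      · have h4 : |x₀ (eJ.symm t : J)| = 1 := le_antisymm (hx₀ _) (not_lt.1 h)
        rw [x2 t h4]
        ring
    have e2 : ∑ t : Fin J₀.card, big η (v (eJ.symm t : J) k) (x₀ (eJ.symm t : J)) =
        ∑ j ∈ J₀, big η (v j k) (x₀ j) := by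
      rw [← Finset.sum_coe_sort J₀ (fun j => big η (v j k) (x₀ j)), ← Equiv.sum_comp eJ.symm]
    have e3 : ∑ t : Fin J₀.card, small η (v (eJ.symm t : J) k) (x₀ (eJ.symm t : J)) =
        ∑ j ∈ J₀, small η (v j k) (x₀ j) := by
      rw [← Finset.sum_coe_sort J₀ (fun j => small η (v j k) (x₀ j)), ← Equiv.sum_comp eJ.symm]
    rw [e1, e2, e3] at h3
    exact h3

/-- **the infinite form** -/
theorem inf_cut : ∃ C : ℝ, 0 < C ∧ ∀ (D : ℕ) (η : ℝ), 1 ≤ D → 0 < η →
    ∀ (J : Type u) (I : Type w) (v : J → I → ℝ) (x₀ : J → ℝ),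
    (∀ j, ∀ F : Finset I, ∑ k ∈ F, v j k ^ 2 ≤ 1) → (∀ j, |x₀ j| ≤ 1) →
    ∃ x : J → ℝ, (∀ j, x j = 1 ∨ x j = -1) ∧ (∀ j, |x₀ j| = 1 → x j = x₀ j) ∧
      ∀ k, Summable (al v x₀ k) →
        Summable (fun j => |(x j - x₀ j) * v j k|) ∧
        |∑' j, (x j - x₀ j) * v j k| ≤
          C * (1 + Real.log D) * (1 + (∑' j, big η (v j k) (x₀ j)) / D) +
            2 * ∑' j, small η (v j k) (x₀ j) := by
  classical
  obtain ⟨C, hC, H⟩ := fin_cut
  refine ⟨C, hC, ?_⟩
  intro D η hD hη J I v x₀ hv hx₀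
  have hD1 : (1 : ℝ) ≤ D := by exact_mod_cast hD
  have hlD : 0 ≤ Real.log (D : ℝ) := Real.log_nonneg hD1
  obtain ⟨B, hB⟩ : ∃ B : I → ℝ, B = fun k =>
    C * (1 + Real.log D) * (1 + (∑' j, big η (v j k) (x₀ j)) / D) +
      2 * ∑' j, small η (v j k) (x₀ j) := ⟨_, rfl⟩
  let t : Option ({k : I // Summable (al v x₀ k)} × ℕ) → Set (J → Bool) :=
    fun o => match o with
    | none => {b | ∀ j, |x₀ j| = 1 → sg (b j) = x₀ j}
    | some p => {b | |∑' j, tm v x₀ p.1 j b| ≤ B p.1 + 1 / ((p.2 : ℝ) + 1)}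
  have hcl : ∀ o, IsClosed (t o) := by
    rintro (_ | p)
    · have : t none = ⋂ j, {b : J → Bool | |x₀ j| = 1 → sg (b j) = x₀ j} := by
        ext b
        simp [t]
      rw [this]
      refine isClosed_iInter fun j => ?_
      by_cases hj : |x₀ j| = 1
      · have : {b : J → Bool | |x₀ j| = 1 → sg (b j) = x₀ j} = {b | sg (b j) = x₀ j} := by
          ext b
          simp [hj]
        rw [this]
        exact isClosed_eq (continuous_sg.comp (continuous_apply j)) continuous_const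
      · have : {b : J → Bool | |x₀ j| = 1 → sg (b j) = x₀ j} = Set.univ := by
          ext b
          simp [hj]
        rw [this]
        exact isClosed_univ
    · refine isClosed_le ?_ continuous_const
      refine (continuous_tsum (fun j => continuous_tm v x₀ p.1 j) (p.1.2.mul_left 2)
        fun j b => ?_).abs
      exact abs_tm_le _ _ _ _ _
  have hfip : ∀ s : Finset (Option ({k : I // Summable (al v x₀ k)} × ℕ)),
      (⋂ o ∈ s, t o).Nonempty := by
    intro s
    obtain ⟨P, hP⟩ : ∃ P : Finset ({k : I // Summable (al v x₀ k)} × ℕ),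
        P = s.eraseNone := ⟨_, rfl⟩
    obtain ⟨N, hN⟩ : ∃ N : ℕ, ∀ p ∈ P, p.2 ≤ N := by
      refine ⟨P.sup (fun p => p.2), fun p hp => ?_⟩
      exact Finset.le_sup (f := fun p : {k : I // Summable (al v x₀ k)} × ℕ => p.2) hp
    have hε : (0 : ℝ) < 1 / ((N : ℝ) + 1) := by positivity
    have htail : ∀ p : {k : I // Summable (al v x₀ k)} × ℕ,
        ∃ S : Finset J, ∀ T : Finset J, S ⊆ T → 2 * ∑' j : ↥((T : Set J)ᶜ),
          al v x₀ p.1 j ≤ 1 / ((N : ℝ) + 1) := by
      intro p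
      have h1 := tendsto_order.1 (tendsto_tsum_compl_atTop_zero
        (fun j => 2 * al v x₀ p.1 j))
      obtain ⟨S, hS⟩ := Filter.eventually_atTop.1 (h1.2 _ hε)
      refine ⟨S, fun T hT => ?_⟩
      have h2 := (hS T hT).le
      rw [tsum_mul_left] at h2
      exact h2
    choose S hS using htail
    obtain ⟨J₀, hJ₀⟩ : ∃ J₀ : Finset J, J₀ = P.biUnion S := ⟨_, rfl⟩
    obtain ⟨b, hb1, hb2⟩ := fin_stage (H D η hD hη) v x₀ hv hx₀
      (P.image (fun p => (p.1 : I))) J₀
    refine ⟨b, ?_⟩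
    rw [Set.mem_iInter₂]
    rintro (_ | p) ho
    · exact hb1
    · have hpP : p ∈ P := by
        rw [hP]
        exact Finset.mem_eraseNone.2 ho
      change |∑' j, tm v x₀ p.1 j b| ≤ B p.1 + 1 / ((p.2 : ℝ) + 1)
      have hsum : Summable (fun j => tm v x₀ p.1 j b) :=
        Summable.of_norm_bounded (p.1.2.mul_left 2) (fun j => abs_tm_le _ _ _ _ _)
      have hsub : S p ⊆ J₀ := by
        rw [hJ₀]
        exact Finset.subset_biUnion_of_mem S hpP
      have e1 : ∑' j, tm v x₀ p.1 j b = ∑ j ∈ J₀, tm v x₀ p.1 j b +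
          ∑' j : ↥((J₀ : Set J)ᶜ), tm v x₀ p.1 j b :=
        (hsum.sum_add_tsum_compl (s := J₀)).symm
      have e2 : |∑' j : ↥((J₀ : Set J)ᶜ), tm v x₀ p.1 j b| ≤ 1 / ((N : ℝ) + 1) := by
        have h1 : Summable (fun j : ↥((J₀ : Set J)ᶜ) => 2 * al v x₀ p.1 j) :=
          (p.1.2.mul_left 2).subtype _
        have h2 := tsum_of_norm_bounded (f := fun j : ↥((J₀ : Set J)ᶜ) => tm v x₀ p.1 j b)
          h1.hasSum (fun j => abs_tm_le _ _ _ _ _)
        rw [Real.norm_eq_abs, tsum_mul_left] at h2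
        exact h2.trans (hS p J₀ hsub)
      have e3 := hb2 p.1 (Finset.mem_image_of_mem _ hpP)
      have hsb : Summable (fun j => big η (v j p.1) (x₀ j)) :=
        Summable.of_nonneg_of_le (fun j => big_nonneg _ _ _) (fun j => big_le_al hη _ _)
          (p.1.2.mul_left _)
      have hss : Summable (fun j => small η (v j p.1) (x₀ j)) :=
        Summable.of_nonneg_of_le (fun j => small_nonneg _ _ _) (fun j => small_le_al _ _) p.1.2
      have e4 : C * (1 + Real.log D) * (1 + (∑ j ∈ J₀, big η (v j p.1) (x₀ j)) / D) +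
          2 * ∑ j ∈ J₀, small η (v j p.1) (x₀ j) ≤ B p.1 := by
        rw [hB]
        dsimp only
        have h5 : ∑ j ∈ J₀, big η (v j p.1) (x₀ j) ≤ ∑' j, big η (v j p.1) (x₀ j) :=
          hsb.sum_le_tsum _ (fun j _ => big_nonneg _ _ _)
        have h6 : ∑ j ∈ J₀, small η (v j p.1) (x₀ j) ≤ ∑' j, small η (v j p.1) (x₀ j) :=
          hss.sum_le_tsum _ (fun j _ => small_nonneg _ _ _)
        gcongr
      have e5 : (1 : ℝ) / ((N : ℝ) + 1) ≤ 1 / ((p.2 : ℝ) + 1) := by
        have : (p.2 : ℝ) ≤ N := by exact_mod_cast hN p hpP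
        gcongr
      rw [e1]
      refine (abs_add_le _ _).trans ?_
      linarith
  obtain ⟨b, hb⟩ := CompactSpace.iInter_nonempty hcl hfip
  rw [Set.mem_iInter] at hb
  have hb1 : ∀ j, |x₀ j| = 1 → sg (b j) = x₀ j := hb none
  have htm : ∀ k j, tm v x₀ k j b = (sg (b j) - x₀ j) * v j k := by
    intro k j
    unfold tm
    split_ifs with h
    · rfl
    · rw [hb1 j (le_antisymm (hx₀ j) (not_lt.1 h))]
      ring
  refine ⟨fun j => sg (b j), fun j => sg_eq _, hb1, fun k hk => ⟨?_, ?_⟩⟩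
  · refine Summable.of_nonneg_of_le (fun j => abs_nonneg _) (fun j => ?_) (hk.mul_left 2)
    have h1 := abs_tm_le v x₀ k j b
    rw [htm, Real.norm_eq_abs] at h1
    exact h1
  · have h1 : ∀ n : ℕ, |∑' j, (sg (b j) - x₀ j) * v j k| ≤ B k + 1 / ((n : ℝ) + 1) := by
      intro n
      have h2 : |∑' j, tm v x₀ k j b| ≤ B k + 1 / ((n : ℝ) + 1) := hb (some (⟨k, hk⟩, n))
      simp only [htm] at h2
      exact h2
    have h3 : |∑' j, (sg (b j) - x₀ j) * v j k| ≤ B k + 0 :=
      ge_of_tendsto' (tendsto_const_nhds.add tendsto_one_div_add_atTop_nhds_zero_nat) h1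
    rw [add_zero, hB] at h3
    exact h3

end

end Pool.Agent.U531.KL
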