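import Pool.Agent.U531.KL.Inf

set_option autoImplicit false

/-!
# Infinite families: subtypes instead of indicators, and `ℓ_q` masses of the coordinates
-/

open Finset

namespace Pool.Agent.U531.KL

noncomputable section

universe u w

variable {J : Type u} {I : Type w} {v : J → I → ℝ} {x₀ : J → ℝ} {k : I}

theorem al_eq : al v x₀ k = Set.indicator {j | |x₀ j| < 1} (fun j => |v j k|) := by
  classical
  funext j
  unfold al
  rw [Set.indicator_apply]
  rfl

theorem summable_al_iff : Summable (al v x₀ k) ↔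
    Summable (fun j : {j // |x₀ j| < 1} => |v j k|) := by
  rw [al_eq]
  exact (summable_subtype_iff_indicator (f := fun j => |v j k|) (s := {j | |x₀ j| < 1})).symm

theorem tsum_small {η : ℝ} : ∑' j, small η (v j k) (x₀ j) =
    ∑' j : {j // |x₀ j| < 1 ∧ |v j k| < η}, |v j k| := by
  classical
  have h : (fun j => small η (v j k) (x₀ j)) =
      Set.indicator {j | |x₀ j| < 1 ∧ |v j k| < η} (fun j => |v j k|) := by
    funext j
    unfold small
    rw [Set.indicator_apply]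
    rfl
  rw [h]
  exact (tsum_subtype {j | |x₀ j| < 1 ∧ |v j k| < η} (fun j => |v j k|)).symm

theorem large_finite {η : ℝ} (hη : 0 < η) (h : Summable (al v x₀ k)) :
    {j | |x₀ j| < 1 ∧ η ≤ |v j k|}.Finite := by
  have h1 := (h.tendsto_cofinite_zero.eventually (gt_mem_nhds hη))
  rw [Filter.eventually_cofinite] at h1
  refine h1.subset fun j hj => ?_
  rw [Set.mem_ofPred_eq] at hj ⊢
  unfold al
  rw [if_pos hj.1]
  exact not_lt.2 hj.2

theorem tsum_big {η : ℝ} (hη : 0 < η) (h : Summable (al v x₀ k)) :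
    ∑' j, big η (v j k) (x₀ j) = ({j | |x₀ j| < 1 ∧ η ≤ |v j k|}.ncard : ℝ) := by
  classical
  have hf := large_finite hη h
  rw [tsum_eq_sum (s := hf.toFinset) (by
    intro j hj
    rw [Set.Finite.mem_toFinset, Set.mem_ofPred_eq] at hj
    unfold big
    rw [if_neg hj])]
  have h1 : ∀ j ∈ hf.toFinset, big η (v j k) (x₀ j) = 1 := by
    intro j hj
    rw [Set.Finite.mem_toFinset, Set.mem_ofPred_eq] at hj
    unfold big
    rw [if_pos hj]
  rw [sum_congr rfl h1, sum_const, nsmul_eq_mul, mul_one, Set.ncard_eq_toFinset_card _ hf]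

/-- the mass of the entry `y` -/
def ms (q : ℝ) (v : J → I → ℝ) (x₀ : J → ℝ) (k : I) : J → ℝ :=
  Set.indicator {j | |x₀ j| < 1 ∧ v j k ≠ 0} (fun j => |v j k| ^ q)

theorem ms_nonneg (q : ℝ) (j : J) : 0 ≤ ms q v x₀ k j :=
  Set.indicator_nonneg (fun j _ => by positivity) j

theorem summable_ms_iff {q : ℝ} : Summable (ms q v x₀ k) ↔
    Summable (fun j : {j // |x₀ j| < 1 ∧ v j k ≠ 0} => |v j k| ^ q) :=
  (summable_subtype_iff_indicator (f := fun j => |v j k| ^ q)
    (s := {j | |x₀ j| < 1 ∧ v j k ≠ 0})).symm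

theorem tsum_ms {q : ℝ} : ∑' j, ms q v x₀ k j =
    ∑' j : {j // |x₀ j| < 1 ∧ v j k ≠ 0}, |v j k| ^ q :=
  (tsum_subtype {j | |x₀ j| < 1 ∧ v j k ≠ 0} (fun j => |v j k| ^ q)).symm

theorem al_le_ms {q : ℝ} (hq1 : q < 1) (hv : ∀ j, |v j k| ≤ 1) (j : J) :
    al v x₀ k j ≤ ms q v x₀ k j := by
  classical
  unfold al ms
  rw [Set.indicator_apply]
  by_cases ha : |x₀ j| < 1
  · rw [if_pos ha]
    by_cases h0 : v j k = 0
    · rw [if_neg (fun h : j ∈ {j | |x₀ j| < 1 ∧ v j k ≠ 0} => h.2 h0), h0, abs_zero]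
    · rw [if_pos ⟨ha, h0⟩]
      have h1 : 0 < |v j k| := abs_pos.2 h0
      calc |v j k| = |v j k| ^ (1 : ℝ) := (Real.rpow_one _).symm
        _ ≤ |v j k| ^ q := Real.rpow_le_rpow_of_exponent_ge h1 (hv j) hq1.le
  · rw [if_neg ha, if_neg (fun h => ha h.1)]

theorem big_le_ms {q η : ℝ} (hη : 0 < η) (hq : 0 ≤ q) (j : J) :
    big η (v j k) (x₀ j) ≤ (η ^ q)⁻¹ * ms q v x₀ k j := by
  classical
  unfold big ms
  rw [Set.indicator_apply]
  by_cases h : |x₀ j| < 1 ∧ η ≤ |v j k|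
  · have h0 : 0 < |v j k| := lt_of_lt_of_le hη h.2
    rw [if_pos h, if_pos ⟨h.1, abs_pos.1 h0⟩, ← div_eq_inv_mul,
      one_le_div (Real.rpow_pos_of_pos hη q)]
    exact Real.rpow_le_rpow hη.le h.2 hq
  · rw [if_neg h]
    split_ifs <;> positivity

theorem small_le_ms {q η : ℝ} (hη : 0 < η) (hq1 : q < 1) (j : J) :
    small η (v j k) (x₀ j) ≤ η ^ (1 - q) * ms q v x₀ k j := by
  classical
  unfold small ms
  rw [Set.indicator_apply]
  by_cases h : |x₀ j| < 1 ∧ |v j k| < η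
  · rw [if_pos h]
    by_cases h0 : v j k = 0
    · rw [if_neg (fun h : j ∈ {j | |x₀ j| < 1 ∧ v j k ≠ 0} => h.2 h0), h0, abs_zero, mul_zero]
    · rw [if_pos ⟨h.1, h0⟩]
      have h1 : 0 < |v j k| := abs_pos.2 h0
      calc |v j k| = |v j k| ^ (1 - q) * |v j k| ^ q := by
            rw [← Real.rpow_add h1]
            simp
        _ ≤ η ^ (1 - q) * |v j k| ^ q := by
            refine mul_le_mul_of_nonneg_right ?_ (by positivity)
            exact Real.rpow_le_rpow h1.le h.2.le (by linarith)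
  · rw [if_neg h]
    split_ifs <;> positivity

/-- the numerical part -/
theorem num {C q D m N s : ℝ} {E : ℕ} (hC : 0 < C) (hq1 : q < 1) (hq : 0 ≤ q) (hD : 1 ≤ D)
    (hE : E = ⌈D ^ (1 / (1 - q))⌉₊) (hm : 0 ≤ m)
    (hN : N ≤ D ^ (1 / (1 - q) * q) * m) (hs : s ≤ D⁻¹ * m) :
    C * (1 + Real.log E) * (1 + N / E) + 2 * s ≤
      (2 * C + 2) / (1 - q) * (1 + Real.log D) * (1 + m / D) := by
  have hD0 : 0 < D := by linarith
  have hr : 0 < 1 - q := by linarith
  obtain ⟨κ, hκ⟩ : ∃ κ : ℝ, κ = 1 / (1 - q) := ⟨_, rfl⟩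
  rw [← hκ] at hE hN
  have hκ1 : 1 ≤ κ := by
    rw [hκ, le_div_iff₀ hr]
    linarith
  have hκr : κ * (1 - q) = 1 := by
    rw [hκ]
    field_simp
  have hDκ : 1 ≤ D ^ κ := Real.one_le_rpow hD (by linarith)
  have hEl : D ^ κ ≤ E := by
    rw [hE]
    exact Nat.le_ceil _
  have hE1 : (1 : ℝ) ≤ E := hDκ.trans hEl
  have hEu : (E : ℝ) ≤ 2 * D ^ κ := by
    rw [hE]
    have := (Nat.ceil_lt_add_one (by linarith : 0 ≤ D ^ κ)).le
    linarith
  have hE0 : (0 : ℝ) < E := by linarith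
  have hlD : 0 ≤ Real.log D := Real.log_nonneg hD
  have hlog : 1 + Real.log E ≤ 2 * κ * (1 + Real.log D) := by
    have h1 : Real.log E ≤ Real.log (2 * D ^ κ) := Real.log_le_log hE0 hEu
    rw [Real.log_mul (by norm_num) (by positivity), Real.log_rpow hD0] at h1
    have h2 : Real.log 2 ≤ 1 := by
      have := Real.log_two_lt_d9
      linarith
    have h4 : 0 ≤ κ * Real.log D := by positivity
    nlinarith
  have hNE : N / E ≤ m / D := by
    rw [div_le_div_iff₀ hE0 hD0]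
    have h1 : D ^ (κ * q) * D = D ^ κ := by
      rw [← Real.rpow_add_one hD0.ne']
      congr 1
      linarith
    calc N * D ≤ D ^ (κ * q) * m * D := mul_le_mul_of_nonneg_right hN hD0.le
      _ = m * D ^ κ := by rw [← h1]; ring
      _ ≤ m * E := mul_le_mul_of_nonneg_left hEl hm
  have hmD : 0 ≤ m / D := by positivity
  have hle : 0 ≤ 1 + Real.log (E : ℝ) := by
    have : 0 ≤ Real.log (E : ℝ) := Real.log_nonneg hE1
    linarith
  have h1 : C * (1 + Real.log E) * (1 + N / E) ≤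
      C * (2 * κ * (1 + Real.log D)) * (1 + m / D) := by
    refine mul_le_mul_of_nonneg_left (by linarith : 1 + N / E ≤ 1 + m / D)
      (by positivity : 0 ≤ C * (1 + Real.log (E : ℝ))) |>.trans ?_
    gcongr
  have h2 : 2 * s ≤ 2 * κ * (1 + Real.log D) * (1 + m / D) := by
    have h3 : 1 ≤ κ * (1 + Real.log D) := by nlinarith
    have h4 : s ≤ m / D := by rw [div_eq_inv_mul]; exact hs
    nlinarith [mul_nonneg (sub_nonneg.2 h3) hmD]
  have h4 : (2 * C + 2) / (1 - q) * (1 + Real.log D) * (1 + m / D) =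
      C * (2 * κ * (1 + Real.log D)) * (1 + m / D) + 2 * κ * (1 + Real.log D) * (1 + m / D) := by
    rw [hκ]
    ring
  rw [h4]
  linarith

end

end Pool.Agent.U531.KL
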